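import Pool.Agent.H55.Per.Tools
import Pool.Agent.H7.F5.Run7

set_option autoImplicit false

/-!
# MP_2e6055, F5 (helper55): COR7, the corridor data of the first template
-/

namespace Pool.Agent.H55.Per

open Pool.Agent.H7.UC Pool.Agent.H74.Tri Pool.Agent.H75.Perc Pool.Agent.H75.Lv Pool.Agent.H55.Lane
  Pool.Agent.H53.Per
open Pool.Agent.H7.F5 (S7 out7_iff find_up)

/-- the left lane in inequalities -/
def LL (t b k e x1 y X Y : ℤ) : Prop :=
  (b + 10 * t + 1 ≤ X ∧ X ≤ x1 - 1 ∧ y - t ≤ Y ∧ Y ≤ y - 1) ∨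
  (b + 10 * t + 1 ≤ X ∧ X ≤ b + 11 * t ∧ -b - t ≤ Y ∧ Y ≤ y - 1) ∨
  (-b - t ≤ X ∧ X ≤ b + 11 * t ∧ -b - t ≤ Y ∧ Y ≤ -b - 1) ∨
  (-b - t ≤ X ∧ X ≤ -b - 1 ∧ -b - t ≤ Y ∧ Y ≤ b + t) ∨
  (-b - t ≤ X ∧ X ≤ b - 9 * t ∧ b + 1 ≤ Y ∧ Y ≤ b + t) ∨
  (b - 10 * t + 1 ≤ X ∧ X ≤ b - 9 * t ∧ -2 * k - t ≤ Y ∧ Y ≤ b + t) ∨
  (e + 1 ≤ X ∧ X ≤ b - 9 * t ∧ -2 * k - t ≤ Y ∧ Y ≤ -2 * k - 1)

/-- the right lane in inequalities -/
def RR (t b k e x1 y X Y : ℤ) : Prop :=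
  (b + 9 * t ≤ X ∧ X ≤ x1 - 1 ∧ y + 1 ≤ Y ∧ Y ≤ y + t) ∨
  (b + 9 * t ≤ X ∧ X ≤ b + 10 * t - 1 ∧ -b + 1 ≤ Y ∧ Y ≤ y + t) ∨
  (-b + 1 ≤ X ∧ X ≤ b + 10 * t - 1 ∧ -b + 1 ≤ Y ∧ Y ≤ -b + t) ∨
  (-b + 1 ≤ X ∧ X ≤ -b + t ∧ -b + 1 ≤ Y ∧ Y ≤ b - 1) ∨
  (-b + 1 ≤ X ∧ X ≤ b - 10 * t - 1 ∧ b - t ≤ Y ∧ Y ≤ b - 1) ∨
  (b - 11 * t ≤ X ∧ X ≤ b - 10 * t - 1 ∧ -2 * k + 1 ≤ Y ∧ Y ≤ b - 1) ∨
  (e + 1 ≤ X ∧ X ≤ b - 10 * t - 1 ∧ -2 * k + 1 ≤ Y ∧ Y ≤ -2 * k + t)

theorem inL7 {C : Ch} {f : Fc} {t b k e x1 y : ℤ} (h : ∃ s ∈ L7 t b k e x1 y, InC C s f) :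
    LL t b k e x1 y (C.X f) (C.Y f) := by
  obtain ⟨s, hs, h1, h2⟩ := h
  unfold L7 at hs
  simp only [List.mem_cons, List.not_mem_nil, or_false] at hs
  unfold LL
  rcases hs with rfl | rfl | rfl | rfl | rfl | rfl | rfl <;> simp only at h1 h2
  · exact Or.inl ⟨h1.1, h1.2, h2.1, h2.2⟩
  · exact Or.inr (Or.inl ⟨h1.1, h1.2, h2.1, h2.2⟩)
  · exact Or.inr (Or.inr (Or.inl ⟨h1.1, h1.2, h2.1, h2.2⟩))
  · exact Or.inr (Or.inr (Or.inr (Or.inl ⟨h1.1, h1.2, h2.1, h2.2⟩)))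
  · exact Or.inr (Or.inr (Or.inr (Or.inr (Or.inl ⟨h1.1, h1.2, h2.1, h2.2⟩))))
  · exact Or.inr (Or.inr (Or.inr (Or.inr (Or.inr (Or.inl ⟨h1.1, h1.2, h2.1, h2.2⟩)))))
  · exact Or.inr (Or.inr (Or.inr (Or.inr (Or.inr (Or.inr ⟨h1.1, h1.2, h2.1, h2.2⟩)))))

theorem inR7 {C : Ch} {f : Fc} {t b k e x1 y : ℤ} (h : ∃ s ∈ R7 t b k e x1 y, InC C s f) :
    RR t b k e x1 y (C.X f) (C.Y f) := by
  obtain ⟨s, hs, h1, h2⟩ := h
  unfold R7 at hs
  simp only [List.mem_cons, List.not_mem_nil, or_false] at hs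
  unfold RR
  rcases hs with rfl | rfl | rfl | rfl | rfl | rfl | rfl <;> simp only at h1 h2
  · exact Or.inl ⟨h1.1, h1.2, h2.1, h2.2⟩
  · exact Or.inr (Or.inl ⟨h1.1, h1.2, h2.1, h2.2⟩)
  · exact Or.inr (Or.inr (Or.inl ⟨h1.1, h1.2, h2.1, h2.2⟩))
  · exact Or.inr (Or.inr (Or.inr (Or.inl ⟨h1.1, h1.2, h2.1, h2.2⟩)))
  · exact Or.inr (Or.inr (Or.inr (Or.inr (Or.inl ⟨h1.1, h1.2, h2.1, h2.2⟩))))
  · exact Or.inr (Or.inr (Or.inr (Or.inr (Or.inr (Or.inl ⟨h1.1, h1.2, h2.1, h2.2⟩)))))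
  · exact Or.inr (Or.inr (Or.inr (Or.inr (Or.inr (Or.inr ⟨h1.1, h1.2, h2.1, h2.2⟩)))))

/-- the conditions on the numbers without absolute values -/
structure Nm (t b k e V1 V2 x1 x2 y : ℤ) : Prop where
  t2 : 2 ≤ t
  tk : 100 * t ≤ k
  ke : 4 * k ≤ e
  eb : 8 * e ≤ b
  v1 : -e ≤ V1
  v1' : V1 ≤ e
  v2 : -e ≤ V2
  v2' : V2 ≤ e
  hx1 : x1 = V1 + 4 * b
  x2V : -(4 * b) ≤ x2 - V2
  x2V' : x2 - V2 ≤ 4 * b
  x0 : 0 ≤ x2
  y0 : 0 ≤ y
  xy : -(2 * t) ≤ x2 - y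
  xy' : x2 - y ≤ 2 * t
  yV : y - V2 + t < 4 * b
  yV' : -(y - V2) + t < 4 * b

theorem Nm.of {t b k e R V1 V2 x1 x2 y : ℤ} (h : Num7 t b k e R V1 V2 x1 x2 y) :
    Nm t b k e V1 V2 x1 x2 y := by
  obtain ⟨n1, n2, n3, n4, n5, n6, n7, n8, n9, n10, n11, n12, n13⟩ := h
  rw [abs_le] at n6 n7 n9 n12
  have h1 := le_abs_self (y - V2)
  have h2 := neg_abs_le (y - V2)
  constructor <;> omega

theorem chain_L7 {t b k e V1 V2 x1 x2 y : ℤ} (h : Nm t b k e V1 V2 x1 x2 y) :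
    (L7 t b k e x1 y).IsChain Perp := by
  obtain ⟨n1, n2, n3, n4, n5, n6, n7, n8, n9, n10, n11, n12, n13, n14, n15, n16, n17⟩ := h
  unfold L7
  simp only [List.isChain_cons_cons, List.isChain_singleton, and_true]
  unfold Perp HV
  simp only [Bool.false_eq_true, true_and, false_and, or_false, false_or]
  refine ⟨?_, ?_, ?_, ?_, ?_, ?_⟩ <;> omega

theorem chain_R7 {t b k e V1 V2 x1 x2 y : ℤ} (h : Nm t b k e V1 V2 x1 x2 y) :
    (R7 t b k e x1 y).IsChain Perp := by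
  obtain ⟨n1, n2, n3, n4, n5, n6, n7, n8, n9, n10, n11, n12, n13, n14, n15, n16, n17⟩ := h
  unfold R7
  simp only [List.isChain_cons_cons, List.isChain_singleton, and_true]
  unfold Perp HV
  simp only [Bool.false_eq_true, true_and, false_and, or_false, false_or]
  refine ⟨?_, ?_, ?_, ?_, ?_, ?_⟩ <;> omega

theorem ne_L7 {t b k e V1 V2 x1 x2 y : ℤ} (h : Nm t b k e V1 V2 x1 x2 y) :
    ∀ s ∈ L7 t b k e x1 y, s.x0 ≤ s.x1 ∧ s.y0 ≤ s.y1 := by
  obtain ⟨n1, n2, n3, n4, n5, n6, n7, n8, n9, n10, n11, n12, n13, n14, n15, n16, n17⟩ := h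
  intro s hs
  unfold L7 at hs
  simp only [List.mem_cons, List.not_mem_nil, or_false] at hs
  rcases hs with rfl | rfl | rfl | rfl | rfl | rfl | rfl <;> simp only <;> omega

theorem ne_R7 {t b k e V1 V2 x1 x2 y : ℤ} (h : Nm t b k e V1 V2 x1 x2 y) :
    ∀ s ∈ R7 t b k e x1 y, s.x0 ≤ s.x1 ∧ s.y0 ≤ s.y1 := by
  obtain ⟨n1, n2, n3, n4, n5, n6, n7, n8, n9, n10, n11, n12, n13, n14, n15, n16, n17⟩ := h
  intro s hs
  unfold R7 at hs
  simp only [List.mem_cons, List.not_mem_nil, or_false] at hs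
  rcases hs with rfl | rfl | rfl | rfl | rfl | rfl | rfl <;> simp only <;> omega

/-- the two kinds of vertices at the column `e`, `e + 1` -/
theorem tri_up (C : Ch) (e r : ℤ) : ∃ j, (j = r ∨ j = r + 1) ∧
    Tri3 (C.pt (e + 1) (r + 1)) (C.pt (e + 1) r) (C.pt e j) := by
  unfold Tri3
  rcases C.hs with h | h
  · refine ⟨r + 1, Or.inr rfl, ?_, ?_, ?_⟩ <;> rw [C.adj_pt, h] <;> unfold adC <;> omega
  · refine ⟨r, Or.inl rfl, ?_, ?_, ?_⟩ <;> rw [C.adj_pt, h] <;> unfold adC <;> omega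

theorem tri_dn (C : Ch) (e r : ℤ) : ∃ j, (j = r ∨ j = r - 1) ∧
    Tri3 (C.pt (e + 1) (r - 1)) (C.pt (e + 1) r) (C.pt e j) := by
  unfold Tri3
  rcases C.hs with h | h
  · refine ⟨r, Or.inl rfl, ?_, ?_, ?_⟩ <;> rw [C.adj_pt, h] <;> unfold adC <;> omega
  · refine ⟨r - 1, Or.inr rfl, ?_, ?_, ?_⟩ <;> rw [C.adj_pt, h] <;> unfold adC <;> omega

theorem cor7 (hO : OUT7) : COR7 := by
  intro C U ω p v z0 R t b k e y hS c hT hD hEv
  obtain ⟨hR1, hR2, hL, hRr⟩ := hEv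
  have hE := hS.ent
  have hnum := Nm.of hS.num
  have hRb : R = 4 * b := hS.num.bR
  have hcX : C.X z0 = 0 := by rw [← hS.c]; exact C.X_c
  have hcY : C.Y z0 = 0 := by rw [← hS.c]; exact C.Y_c
  obtain ⟨hO1, hO2, -, -⟩ := hO C U ω p v z0 R t b k e y hS
  -- the left lane
  have hchL := chain_L7 hnum
  have hchR := chain_R7 hnum
  have hneL := ne_L7 hnum
  have hneR := ne_R7 hnum
  obtain ⟨n1, n2, n3, n4, n5, n6, n7, n8, n9, n10, n11, n12, n13, n14, n15, n16, n17⟩ := hnum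
  have mU : ∀ f, -(4 * b) ≤ C.X f - C.X v → C.X f - C.X v ≤ 4 * b → -(4 * b) ≤ C.Y f - C.Y v →
      C.Y f - C.Y v ≤ 4 * b → f ∈ U := fun f h1 h2 h3 h4 => hE.box ((C.mem_Bx f v R).2 (by
    rw [abs_le, abs_le, hRb]
    exact ⟨⟨h1, h2⟩, h3, h4⟩))
  have hUL : ∀ s ∈ L7 t b k e (C.X (ph p)) y, ∀ f, InC C s f → f ∈ U := by
    intro s hs f hf
    have h1 := inL7 ⟨s, hs, hf⟩
    unfold LL at h1
    apply mU <;> rcases h1 with h1 | h1 | h1 | h1 | h1 | h1 | h1 <;> omega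
  have hUR : ∀ s ∈ R7 t b k e (C.X (ph p)) y, ∀ f, InC C s f → f ∈ U := by
    intro s hs f hf
    have h1 := inR7 ⟨s, hs, hf⟩
    unfold RR at h1
    apply mU <;> rcases h1 with h1 | h1 | h1 | h1 | h1 | h1 | h1 <;> omega
  have hTL : ∀ (P : Set Fc) (f : Fc), P ⊆ Anr C U p t y → sbase C p t y (-1) ∈ P →
      Jn P (sbase C p t y (-1)) f → (∃ g, g ∉ U ∧ adjF f g) →
      ∃ f' ∈ P, ∃ g, g ∉ U ∧ adjF f' g ∧ ω g = c := by
    intro P f h1 h2 h3 h4
    obtain ⟨f', hf', g, g1, g2, g3, -⟩ := hT (-1) P f (Or.inr rfl) h1 h2 h3 h4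
    exact ⟨f', hf', g, g1, g2, g3 rfl⟩
  have hTR : ∀ (P : Set Fc) (f : Fc), P ⊆ Anr C U p t y → sbase C p t y 1 ∈ P →
      Jn P (sbase C p t y 1) f → (∃ g, g ∉ U ∧ adjF f g) →
      ∃ f' ∈ P, ∃ g, g ∉ U ∧ adjF f' g ∧ ω g = !c := by
    intro P f h1 h2 h3 h4
    obtain ⟨f', hf', g, g1, g2, -, g3⟩ := hT 1 P f (Or.inl rfl) h1 h2 h3 h4
    exact ⟨f', hf', g, g1, g2, g3 rfl⟩
  obtain ⟨β, bU, bcol, bcon, bout, bsub, bcr⟩ := ray_lane C hE (e := -1) (Or.inr rfl) hchL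
    (s0 := ⟨true, b + 10 * t + 1, C.X (ph p) - 1, y - t, y - 1⟩)
    (by unfold L7; rw [List.head?_cons]; rfl) rfl (by simp only; omega) (by simp only; omega)
    ⟨fun h => absurd h (by norm_num), fun _ => ⟨rfl, rfl⟩⟩ hneL hUL hL hR1 hTL
  obtain ⟨α, aU, acol, acon, aout, asub, acr⟩ := ray_lane C hE (e := 1) (Or.inl rfl) hchR
    (s0 := ⟨true, b + 9 * t, C.X (ph p) - 1, y + 1, y + t⟩)
    (by unfold R7; rw [List.head?_cons]; rfl) rfl (by simp only; omega) (by simp only; omega)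
    ⟨fun _ => ⟨rfl, rfl⟩, fun h => absurd h (by norm_num)⟩ hneR hUR hRr hR2 hTR
  -- membership in the boxes
  have mBz : ∀ f, f ∈ Bx z0 e ↔ (-e ≤ C.X f ∧ C.X f ≤ e) ∧ -e ≤ C.Y f ∧ C.Y f ≤ e := by
    intro f; rw [C.mem_Bx, hcX, hcY, sub_zero, sub_zero, abs_le, abs_le]
  have hSect : ∀ e' f, f ∈ Sect C U p t y e' → f ∈ Anr C U p t y := fun e' f hf => hf.1
  have hAnr : ∀ f, f ∈ Anr C U p t y → (C.X (ph p) - 40 * t ≤ C.X f ∧
      ¬ ((-(10 * t - 1) ≤ C.X f - C.X (ph p) ∧ C.X f - C.X (ph p) ≤ 10 * t - 1) ∧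
        -(10 * t - 1) ≤ C.Y f - C.Y (ph p) ∧ C.Y f - C.Y (ph p) ≤ 10 * t - 1) ∧
      ¬ (C.Y f = y ∧ C.X f ≤ C.X (ph p))) := by
    rintro f ⟨-, h1, h2, h3⟩
    rw [C.mem_Bx, abs_le, abs_le] at h1 h2
    exact ⟨by omega, h2, h3⟩
  have inβ : ∀ f ∈ β, f ∈ Anr C U p t y ∨ LL t b k e (C.X (ph p)) y (C.X f) (C.Y f) := by
    intro f hf
    rcases bsub f hf with h | h
    · exact Or.inl (hSect _ _ h)
    · exact Or.inr (inL7 h)
  have inα : ∀ f ∈ α, f ∈ Anr C U p t y ∨ RR t b k e (C.X (ph p)) y (C.X f) (C.Y f) := by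
    intro f hf
    rcases asub f hf with h | h
    · exact Or.inl (hSect _ _ h)
    · exact Or.inr (inR7 h)
  set S : Finset Fc := U \ (β ∪ α ∪ Bx z0 e) with hSd
  have memS : ∀ f, f ∈ S ↔ f ∈ U ∧ f ∉ β ∧ f ∉ α ∧ f ∉ Bx z0 e := by
    intro f
    rw [hSd, Finset.mem_sdiff, Finset.mem_union, Finset.mem_union]
    tauto
  -- a face off the annulus and off the strips
  have okS : ∀ f, f ∈ U → f ∉ Anr C U p t y → ¬ LL t b k e (C.X (ph p)) y (C.X f) (C.Y f) →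
      ¬ RR t b k e (C.X (ph p)) y (C.X f) (C.Y f) →
      ¬ ((-e ≤ C.X f ∧ C.X f ≤ e) ∧ -e ≤ C.Y f ∧ C.Y f ≤ e) → f ∈ S := by
    intro f h1 h2 h3 h4 h5
    rw [memS, mBz]
    exact ⟨h1, fun h => (inβ f h).elim h2 h3, fun h => (inα f h).elim h2 h4, h5⟩
  -- the vertex faces
  obtain ⟨ub, wb, hub⟩ := bcr ⟨true, e + 1, b - 9 * t, -2 * k - t, -2 * k - 1⟩ (by unfold L7; simp)
  obtain ⟨ua, wa, hua⟩ := acr ⟨true, e + 1, b - 10 * t - 1, -2 * k + 1, -2 * k + t⟩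
    (by unfold R7; simp)
  have hub1 : C.X ub = e + 1 := (hub.1 rfl).1
  have hub2 : -2 * k - t ≤ C.Y ub ∧ C.Y ub ≤ -2 * k - 1 := hub.2.2.1.2.2
  have hubβ : ub ∈ β := by exact_mod_cast hub.2.2.1.1
  have hua1 : C.X ua = e + 1 := (hua.1 rfl).1
  have hua2 : -2 * k + 1 ≤ C.Y ua ∧ C.Y ua ≤ -2 * k + t := hua.2.2.1.2.2
  have huaα : ua ∈ α := by exact_mod_cast hua.2.2.1.1
  have euα : C.pt (e + 1) (C.Y ua) = ua := by rw [← hua1, C.pt_XY]
  -- faces of the column `e + 1` off the strip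
  have hnA : ∀ i j : ℤ, i < C.X (ph p) - 40 * t → C.pt i j ∉ Anr C U p t y := by
    intro i j h1 h2
    have := (hAnr _ h2).1
    rw [C.X_pt] at this
    omega
  have colα : ∀ j : ℤ, -2 * k ≤ j → j ≤ -2 * k + t + 1 → (j = -2 * k ∨ j = -2 * k + t + 1) →
      C.pt (e + 1) j ∉ α := by
    intro j h1 h2 h3 h4
    rcases inα _ h4 with h | h
    · exact hnA _ _ (by omega) h
    · unfold RR at h
      rw [C.X_pt, C.Y_pt] at h
      omega
  obtain ⟨r1, hr1, hr1', hr1α, hr1m⟩ := find_up (fun j => C.pt (e + 1) j ∈ α) (a := -2 * k)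
    (c := C.Y ua) (by omega) (by rw [euα]; exact huaα)
    (colα _ (by omega) (by omega) (Or.inl rfl))
  obtain ⟨r2', hr2, hr2', hr2α, hr2m⟩ := find_up (fun j => C.pt (e + 1) (-j) ∈ α)
    (a := -(-2 * k + t + 1)) (c := -C.Y ua) (by omega)
    (by rw [neg_neg, euα]; exact huaα)
    (by rw [neg_neg]; exact colα _ (by omega) (by omega) (Or.inr rfl))
  obtain ⟨r2, hr2e⟩ : ∃ r2, r2 = -r2' := ⟨_, rfl⟩
  rw [← hr2e] at hr2α
  have hr2m' : ∀ j, r2 < j → j ≤ -2 * k + t + 1 → C.pt (e + 1) j ∉ α := by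
    intro j h1 h2 h3
    refine hr2m (-j) (by omega) (by omega) ?_
    rw [neg_neg]
    exact h3
  obtain ⟨j1, hj1, tr1⟩ := tri_dn C e r1
  obtain ⟨j2, hj2, tr2⟩ := tri_up C e r2
  have colS : ∀ j, -2 * k ≤ j → j ≤ -2 * k + t + 1 → C.pt (e + 1) j ∉ α → C.pt (e + 1) j ∈ S := by
    intro j h1 h2 h3
    rw [memS, mBz]
    refine ⟨?_, ?_, h3, ?_⟩
    · apply mU <;> simp only [C.X_pt, C.Y_pt] <;> omega
    · intro h
      rcases inβ _ h with h | h
      · exact hnA _ _ (by omega) h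
      · unfold LL at h
        rw [C.X_pt, C.Y_pt] at h
        omega
    · rw [C.X_pt, C.Y_pt]
      omega
  -- the spine
  have eph : C.pt (C.X (ph p)) (C.Y (ph p)) = ph p := C.pt_XY _
  have s1 : Jn (↑S : Set Fc) (C.pt (C.X (ph p)) (C.Y (ph p))) (C.pt (C.X (ph p)) y) := by
    apply C.jn_col
    intro j h1 h2
    have hj : -(2 * t) ≤ j - C.Y (ph p) ∧ j - C.Y (ph p) ≤ 2 * t := by omega
    have h3 : C.pt (C.X (ph p)) j ∈ S := by
      apply okS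
      · apply mU <;> simp only [C.X_pt, C.Y_pt] <;> omega
      · intro h
        have := (hAnr _ h).2.1
        rw [C.X_pt, C.Y_pt] at this
        omega
      · unfold LL; rw [C.X_pt, C.Y_pt]; omega
      · unfold RR; rw [C.X_pt, C.Y_pt]; omega
      · rw [C.X_pt, C.Y_pt]; omega
    exact_mod_cast h3
  have s2 : Jn (↑S : Set Fc) (C.pt (C.X (ph p)) y) (C.pt (b + 10 * t) y) := by
    apply C.jn_row
    intro i h1 h2
    have hi : b + 10 * t ≤ i ∧ i ≤ C.X (ph p) := by omega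
    have h3 : C.pt i y ∈ S := by
      apply okS
      · apply mU <;> simp only [C.X_pt, C.Y_pt] <;> omega
      · intro h
        have := (hAnr _ h).2.2
        rw [C.X_pt, C.Y_pt] at this
        omega
      · unfold LL; rw [C.X_pt, C.Y_pt]; omega
      · unfold RR; rw [C.X_pt, C.Y_pt]; omega
      · rw [C.X_pt, C.Y_pt]; omega
    exact_mod_cast h3
  have okc : ∀ i j : ℤ, i < C.X (ph p) - 40 * t → -(4 * b) ≤ i - C.X v → i - C.X v ≤ 4 * b →
      -(4 * b) ≤ j - C.Y v → j - C.Y v ≤ 4 * b →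
      ¬ LL t b k e (C.X (ph p)) y i j → ¬ RR t b k e (C.X (ph p)) y i j →
      ¬ ((-e ≤ i ∧ i ≤ e) ∧ -e ≤ j ∧ j ≤ e) → C.pt i j ∈ (↑S : Set Fc) := by
    intro i j h1 h2 h3 h4 h5 h6 h7 h8
    have : C.pt i j ∈ S := by
      apply okS
      · apply mU <;> simp only [C.X_pt, C.Y_pt] <;> assumption
      · exact hnA _ _ h1
      · rw [C.X_pt, C.Y_pt]; exact h6
      · rw [C.X_pt, C.Y_pt]; exact h7
      · rw [C.X_pt, C.Y_pt]; exact h8
    exact_mod_cast this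
  have s3 : Jn (↑S : Set Fc) (C.pt (b + 10 * t) y) (C.pt (b + 10 * t) (-b)) := by
    apply C.jn_col
    intro j h1 h2
    have hj : -b ≤ j ∧ j ≤ y := by omega
    apply okc <;> (try unfold LL) <;> (try unfold RR) <;> omega
  have s4 : Jn (↑S : Set Fc) (C.pt (b + 10 * t) (-b)) (C.pt (-b) (-b)) := by
    apply C.jn_row
    intro i h1 h2
    have hi : -b ≤ i ∧ i ≤ b + 10 * t := by omega
    apply okc <;> (try unfold LL) <;> (try unfold RR) <;> omega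
  have s5 : Jn (↑S : Set Fc) (C.pt (-b) (-b)) (C.pt (-b) b) := by
    apply C.jn_col
    intro j h1 h2
    have hj : -b ≤ j ∧ j ≤ b := by omega
    apply okc <;> (try unfold LL) <;> (try unfold RR) <;> omega
  have s6 : Jn (↑S : Set Fc) (C.pt (-b) b) (C.pt (b - 10 * t) b) := by
    apply C.jn_row
    intro i h1 h2
    have hi : -b ≤ i ∧ i ≤ b - 10 * t := by omega
    apply okc <;> (try unfold LL) <;> (try unfold RR) <;> omega
  have s7 : Jn (↑S : Set Fc) (C.pt (b - 10 * t) b) (C.pt (b - 10 * t) (-2 * k)) := by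
    apply C.jn_col
    intro j h1 h2
    have hj : -2 * k ≤ j ∧ j ≤ b := by omega
    apply okc <;> (try unfold LL) <;> (try unfold RR) <;> omega
  have s8 : Jn (↑S : Set Fc) (C.pt (b - 10 * t) (-2 * k)) (C.pt (e + 1) (-2 * k)) := by
    apply C.jn_row
    intro i h1 h2
    have hi : e + 1 ≤ i ∧ i ≤ b - 10 * t := by omega
    apply okc <;> (try unfold LL) <;> (try unfold RR) <;> omega
  have s9 : Jn (↑S : Set Fc) (C.pt (e + 1) (-2 * k)) (C.pt (e + 1) (r1 - 1)) := by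
    apply C.jn_col
    intro j h1 h2
    have hj : -2 * k ≤ j ∧ j ≤ r1 - 1 := by omega
    have h3 := colS j hj.1 (by omega) (hr1m j hj.1 (by omega))
    exact_mod_cast h3
  have spine : Jn (↑S : Set Fc) (ph p) (C.pt (e + 1) (r1 - 1)) := by
    rw [← eph]
    exact s1.trans (s2.trans (s3.trans (s4.trans (s5.trans (s6.trans (s7.trans (s8.trans s9)))))))
  have hphS : ph p ∈ S := by
    apply okS
    · apply mU <;> omega
    · intro h
      have := (hAnr _ h).2.1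
      omega
    · unfold LL; omega
    · unfold RR; omega
    · omega
  have hEU : Bx z0 e ⊆ U := by
    intro f hf
    rw [mBz] at hf
    apply mU <;> omega
  refine ⟨β, α, C.pt (e + 1) (r1 - 1), C.pt (e + 1) r1, C.pt e j1, ?_, ?_, ?_, ?_, ?_⟩
  · refine ⟨hE.st, hE.tip, bU, aU, hEU, ?_, ?_, ?_, bcol, acol, bcon, acon, ?_, bout, aout, ?_, hr1α,
      ?_, tr1, spine, hphS⟩
    · rw [Finset.disjoint_left]
      intro f h1 h2
      have h3 := bcol f h1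
      have h4 := acol f h2
      rw [h3] at h4
      revert h4
      cases c <;> simp
    · rw [Finset.disjoint_left]
      intro f h1 h2
      rw [mBz] at h2
      rcases inβ f h1 with h | h
      · have := (hAnr f h).1
        omega
      · unfold LL at h
        omega
    · rw [Finset.disjoint_left]
      intro f h1 h2
      rw [mBz] at h2
      rcases inα f h1 with h | h
      · have := (hAnr f h).1
        omega
      · unfold RR at h
        omega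
    · intro f hf g hg
      refine C.jn_rect (a := -e) (b := e) (c := -e) (d := e) ?_ ?_ ?_
      · intro a ha
        obtain ⟨h1, h2, h3, h4⟩ := ha
        have : a ∈ Bx z0 e := (mBz a).2 ⟨⟨h1, h2⟩, h3, h4⟩
        exact_mod_cast this
      · have := (mBz f).1 hf
        exact ⟨this.1.1, this.1.2, this.2.1, this.2.2⟩
      · have := (mBz g).1 hg
        exact ⟨this.1.1, this.1.2, this.2.1, this.2.2⟩
    · refine ⟨ub, hubβ, C.pt e (C.Y ub), ?_, ?_⟩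
      · rw [mBz, C.X_pt, C.Y_pt]; omega
      · apply C.unit_x
        · rw [C.X_pt]; omega
        · rw [C.Y_pt]
    · rw [mBz, C.X_pt, C.Y_pt]; omega
  · intro f hf
    rcases bsub f hf with h | h
    · exact Or.inl h.1.2.1
    · exact Or.inr h
  · intro f hf
    rcases asub f hf with h | h
    · exact Or.inl h.1.2.1
    · exact Or.inr h
  · rw [C.X_pt]
  · have hf2S : C.pt (e + 1) (r2 + 1) ∈ S :=
      colS _ (by omega) (by omega) (hr2m' _ (by omega) (by omega))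
    refine ⟨C.pt (e + 1) (r2 + 1), C.pt (e + 1) r2, C.pt e j2, hr2α, ?_, tr2, ?_, hf2S, ?_⟩
    · rw [mBz, C.X_pt, C.Y_pt]; omega
    · intro h
      have := congrArg C.Y h
      rw [C.Y_pt, C.Y_pt] at this
      omega
    · have hOS : ∀ f ∈ Out7 C p v z0 R t b k e y, f ∈ S := by
        intro f hf
        rw [out7_iff] at hf
        obtain ⟨h1, h2, h3, h4⟩ := hf
        rw [memS]
        refine ⟨hE.box h1, ?_, ?_, h3⟩
        · intro h
          rcases bsub f h with h | h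
          · exact h2 h.1.2.1
          · have h := inL7 h
            unfold LL at h
            rcases h with h | h | h | h | h | h | h
            · exact h4 0 ⟨by omega, by omega, by omega, by omega⟩
            · exact h4 1 ⟨by omega, by omega, by omega, by omega⟩
            · exact h4 2 ⟨by omega, by omega, by omega, by omega⟩
            · exact h4 3 ⟨by omega, by omega, by omega, by omega⟩
            · exact h4 4 ⟨by omega, by omega, by omega, by omega⟩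
            · exact h4 5 ⟨by omega, by omega, by omega, by omega⟩
            · exact h4 6 ⟨by omega, by omega, by omega, by omega⟩
        · intro h
          rcases asub f h with h | h
          · exact h2 h.1.2.1
          · have h := inR7 h
            unfold RR at h
            rcases h with h | h | h | h | h | h | h
            · exact h4 0 ⟨by omega, by omega, by omega, by omega⟩
            · exact h4 1 ⟨by omega, by omega, by omega, by omega⟩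
            · exact h4 2 ⟨by omega, by omega, by omega, by omega⟩
            · exact h4 3 ⟨by omega, by omega, by omega, by omega⟩
            · exact h4 4 ⟨by omega, by omega, by omega, by omega⟩
            · exact h4 5 ⟨by omega, by omega, by omega, by omega⟩
            · exact h4 6 ⟨by omega, by omega, by omega, by omega⟩
      intro f hf
      have ho : C.pt (e + 1) (-2 * k + t + 1) ∈ Out7 C p v z0 R t b k e y := by
        rw [out7_iff, C.X_pt, C.Y_pt, C.mem_Bx, C.mem_Bx, C.mem_Bx, C.X_pt, C.Y_pt, hcX, hcY, hRb]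
        simp only [abs_le]
        refine ⟨?_, ?_, ?_, ?_⟩
        · omega
        · omega
        · omega
        · intro i hi
          fin_cases i <;> obtain ⟨h1, h2, h3, h4⟩ := hi <;> omega
      have j1' : Jn (↑S : Set Fc) (C.pt (e + 1) (r2 + 1)) (C.pt (e + 1) (-2 * k + t + 1)) := by
        apply C.jn_col
        intro j h1 h2
        have hj : r2 + 1 ≤ j ∧ j ≤ -2 * k + t + 1 := by omega
        have h3 := colS j (by omega) (by omega) (hr2m' _ (by omega) (by omega))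
        exact_mod_cast h3
      refine j1'.trans ((hO2 _ ho f hf).mono ?_)
      intro a ha
      have := hOS a ha
      exact_mod_cast this

end Pool.Agent.H55.Per
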