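import Pool.Agent.H53.Per.Tmp
import Pool.Agent.H52.Tri.Ann

set_option autoImplicit false

/-!
# MP_2e6055, F5 (helper55): tools for the templates

Crossings of chart rectangles meet; the faces of a chain of crossed strips are joined; the cluster of a
ray and a chain of crossed strips.
-/

namespace Pool.Agent.H55.Per

open Pool.Agent.H7.UC Pool.Agent.H74.Tri Pool.Agent.H75.Perc Pool.Agent.H75.Lv Pool.Agent.H55.Lane
  Pool.Agent.H53.Per
open Pool.Agent.H52.Tri (TA Pa meetHV)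

variable (C : Ch)

theorem s_sq : C.s * C.s = 1 := by
  rcases C.hs with h | h <;> rw [h] <;> norm_num

/-- triangular coordinates to faces -/
def psi (z : ℤ × ℤ) : Fc := C.pt z.1 (C.s * z.2)

/-- faces to triangular coordinates -/
def phi (f : Fc) : ℤ × ℤ := (C.X f, C.s * C.Y f)

theorem psi_phi (f : Fc) : psi C (phi C f) = f := by
  unfold psi phi
  simp only
  rw [← mul_assoc, s_sq, one_mul, C.pt_XY]

theorem TA_psi (u v : ℤ × ℤ) : TA u v ↔ adjF (psi C u) (psi C v) := by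
  unfold psi
  rw [C.adj_pt]
  obtain ⟨u1, u2⟩ := u
  obtain ⟨v1, v2⟩ := v
  unfold adC
  constructor
  · intro h
    have := h.cases
    rcases C.hs with h' | h' <;> rw [h'] <;> simp only at this ⊢ <;> omega
  · intro h
    apply TA.of_cases
    rcases C.hs with h' | h' <;> rw [h'] at h <;> simp only at h ⊢ <;> omega

theorem jn_pa {A : Set Fc} {f g : Fc} (hf : f ∈ A) (h : Jn A f g) :
    Pa (fun z => psi C z ∈ A) (phi C f) (phi C g) := by
  refine ⟨by change psi C (phi C f) ∈ A; rw [psi_phi]; exact hf, ?_⟩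
  refine Relation.ReflTransGen.lift (phi C) (fun a b hab => ⟨?_, ?_⟩) _ _ h
  · rw [TA_psi C, psi_phi, psi_phi]
    exact hab.2
  · change psi C (phi C b) ∈ A
    rw [psi_phi]
    exact hab.1

theorem pa_jn {A : Set Fc} {u v : ℤ × ℤ} (h : Pa (fun z => psi C z ∈ A) u v) :
    Jn A (psi C u) (psi C v) :=
  Relation.ReflTransGen.lift (psi C) (fun _ _ hab => ⟨hab.2, (TA_psi C _ _).1 hab.1⟩) _ _ h.2

/-- paths in the `X` direction and in the `Y` direction meet -/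
theorem meetC {A B : Set Fc} {p q r s : Fc} {a b c d : ℤ} (hp : p ∈ A) (hP : Jn A p q)
    (hr : r ∈ B) (hQ : Jn B r s) (h1 : C.X p = a) (h2 : C.X q = b) (h3 : C.Y r = c) (h4 : C.Y s = d)
    (hA : ∀ z ∈ A, c ≤ C.Y z ∧ C.Y z ≤ d) (hB : ∀ z ∈ B, a ≤ C.X z ∧ C.X z ≤ b) :
    ∃ z, z ∈ A ∧ z ∈ B ∧ Jn A p z ∧ Jn B r z := by
  have hs : s ∈ B := hQ.mem hr
  have P1 := jn_pa C hp hP
  have Q1 := jn_pa C hr hQ
  have eX : ∀ z : ℤ × ℤ, C.X (psi C z) = z.1 := fun z => by unfold psi; rw [C.X_pt]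
  have eY : ∀ z : ℤ × ℤ, C.Y (psi C z) = C.s * z.2 := fun z => by unfold psi; rw [C.Y_pt]
  rcases C.hs with h' | h'
  · obtain ⟨z, z1, z2⟩ := meetHV (a := a) (b := b) (c := c) (d := d) P1 Q1 h1 h2
      (by unfold phi; rw [h', h3]; simp) (by unfold phi; rw [h', h4]; simp)
      (fun z hz => by have := hA _ hz; rw [eY, h'] at this; omega)
      (fun z hz => by have := hB _ hz; rw [eX] at this; omega)
    have e1 := pa_jn C z1
    have e2 := pa_jn C z2
    rw [psi_phi] at e1 e2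
    exact ⟨psi C z, z1.right, z2.right, e1, e2⟩
  · obtain ⟨z, z1, z2⟩ := meetHV (a := a) (b := b) (c := -d) (d := -c) P1 Q1.symm h1 h2
      (by unfold phi; rw [h', h4]; simp) (by unfold phi; rw [h', h3]; simp)
      (fun z hz => by have := hA _ hz; rw [eY, h'] at this; omega)
      (fun z hz => by have := hB _ hz; rw [eX] at this; omega)
    have e1 := pa_jn C z1
    have e2 := pa_jn C z2
    rw [psi_phi] at e1 e2
    exact ⟨psi C z, z1.right, z2.right, e1, hQ.trans e2⟩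

/-- `u, v` are the ends of a crossing of the strip `s` in `S` -/
def IsCr (S : Set Fc) (s : Sp) (u v : Fc) : Prop :=
  (s.hor = true → C.X u = s.x0 ∧ C.X v = s.x1) ∧ (s.hor = false → C.Y u = s.y0 ∧ C.Y v = s.y1) ∧
  u ∈ S ∩ {f | InC C s f} ∧ Jn (S ∩ {f | InC C s f}) u v

theorem rc_in (s : Sp) : C.Rc s.x0 s.x1 s.y0 s.y1 = {f | InC C s f} := by
  ext f
  unfold Ch.Rc InC Sp.In
  simp only [Set.mem_ofPred_eq]
  tauto

theorem CrC.cr {S : Set Fc} {s : Sp} (h0 : s.x0 ≤ s.x1) (h0' : s.y0 ≤ s.y1) (h : CrC C S s) :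
    ∃ u v, IsCr C S s u v := by
  unfold CrC at h
  by_cases hh : s.hor = true
  · rw [if_pos hh] at h
    obtain ⟨u, v, h1, h2, h3, h4, h5, _, _, h6⟩ := h
    rw [rc_in] at h6
    refine ⟨u, v, fun _ => ⟨h2, h5⟩, fun h => absurd hh (by simp [h]), ⟨h1, ?_⟩, h6⟩
    unfold InC Sp.In
    simp only [Set.mem_ofPred_eq]
    omega
  · rw [if_neg hh] at h
    obtain ⟨u, v, h1, h2, h3, h4, h5, _, _, h6⟩ := h
    rw [rc_in] at h6
    refine ⟨u, v, fun h => absurd h hh, fun _ => ⟨h2, h5⟩, ⟨h1, ?_⟩, h6⟩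
    unfold InC Sp.In
    simp only [Set.mem_ofPred_eq]
    omega

theorem meet_HV {s t : Sp} (h : HV s t) {S : Set Fc} {u v u' v' : Fc} (h1 : IsCr C S s u v)
    (h2 : IsCr C S t u' v') : ∃ z, Jn (S ∩ {f | InC C s f}) u z ∧ z ∈ S ∩ {f | InC C t f} ∧
      Jn (S ∩ {f | InC C t f}) u' z := by
  obtain ⟨hs, ht, a1, a2, a3, a4⟩ := h
  obtain ⟨z, z1, z2, z3, z4⟩ := meetC C h1.2.2.1 h1.2.2.2 h2.2.2.1 h2.2.2.2 (h1.1 hs).1 (h1.1 hs).2
    (h2.2.1 ht).1 (h2.2.1 ht).2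
    (fun z hz => by have := hz.2; unfold InC Sp.In at this; simp only [Set.mem_ofPred_eq] at this; omega)
    (fun z hz => by have := hz.2; unfold InC Sp.In at this; simp only [Set.mem_ofPred_eq] at this; omega)
  exact ⟨z, z3, z2, z4⟩

/-- the faces of the strips of `l` -/
def LS (l : List Sp) : Set Fc := {f | ∃ s ∈ l, InC C s f}

theorem meet_join {s t : Sp} (h : Perp s t) {S : Set Fc} {u v u' v' : Fc} (h1 : IsCr C S s u v)
    (h2 : IsCr C S t u' v') : Jn (S ∩ LS C [s, t]) u u' := by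
  have m1 : S ∩ {f | InC C s f} ⊆ S ∩ LS C [s, t] := fun f hf => ⟨hf.1, s, by simp, hf.2⟩
  have m2 : S ∩ {f | InC C t f} ⊆ S ∩ LS C [s, t] := fun f hf => ⟨hf.1, t, by simp, hf.2⟩
  rcases h with h | h
  · obtain ⟨z, z1, z2, z3⟩ := meet_HV C h h1 h2
    exact (z1.mono m1).trans ((z3.symm h2.2.2.1).mono m2)
  · obtain ⟨z, z1, z2, z3⟩ := meet_HV C h h2 h1
    exact (z3.mono m1).trans ((z1.symm h2.2.2.1).mono m2)

/-- a chain of crossed strips: everything is joined -/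
theorem chain_conn {S : Set Fc} : ∀ (l : List Sp), l.IsChain Perp →
    (∀ s ∈ l, ∃ u v, IsCr C S s u v) → ∀ s0 ∈ l.head?, ∀ u v, IsCr C S s0 u v →
    ∀ s ∈ l, ∃ u' v', IsCr C S s u' v' ∧ Jn (S ∩ LS C l) u u' := by
  intro l
  induction l with
  | nil => intro _ _ s0 h; simp at h
  | cons a l ih =>
    intro hch hC s0 hs0 u v huv
    rw [List.head?_cons, Option.mem_def, Option.some.injEq] at hs0
    subst hs0
    intro s hs
    rcases List.mem_cons.1 hs with rfl | hs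
    · exact ⟨u, v, huv, Jn.refl _⟩
    · cases l with
      | nil => exact absurd hs (by simp)
      | cons b l =>
        have hab : Perp a b := (List.isChain_cons_cons.1 hch).1
        have hch' := (List.isChain_cons_cons.1 hch).2
        obtain ⟨u1, v1, h1⟩ := hC b (by simp)
        have j1 := meet_join C hab huv h1
        obtain ⟨u2, v2, h2, j2⟩ := ih hch' (fun s hs => hC s (List.mem_cons_of_mem _ hs)) b (by simp)
          u1 v1 h1 s hs
        refine ⟨u2, v2, h2, (j1.mono ?_).trans (j2.mono ?_)⟩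
        · rintro f ⟨hf1, s', hs', hf2⟩
          refine ⟨hf1, s', ?_, hf2⟩
          rcases List.mem_cons.1 hs' with rfl | hs'
          · simp
          · rw [List.mem_singleton] at hs'
            subst hs'
            simp
        · rintro f ⟨hf1, s', hs', hf2⟩
          exact ⟨hf1, s', List.mem_cons_of_mem _ hs', hf2⟩

/-- **The lane lemma.** The cluster of the ray path and of a chain of crossed strips, the first one next
to the ray. -/
theorem ray_lane {U : Finset Fc} {ω : Fc → Bool} {p : Pos} {v : Fc} {R t y : ℤ}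
    (hE : Ent C U ω p v R t y) {e : ℤ} (he : e = 1 ∨ e = -1) {c : Bool} {l : List Sp} {s0 : Sp}
    (hch : l.IsChain Perp) (hs0 : s0 ∈ l.head?) (hh : s0.hor = true)
    (hx0 : s0.x0 ≤ C.X (ph p) - 40 * t) (hx1 : C.X (ph p) - 10 * t ≤ s0.x1)
    (hy : (e = 1 → s0.y0 = y + 1 ∧ s0.y1 = y + t) ∧ (e = -1 → s0.y0 = y - t ∧ s0.y1 = y - 1))
    (hne : ∀ s ∈ l, s.x0 ≤ s.x1 ∧ s.y0 ≤ s.y1)
    (hU : ∀ s ∈ l, ∀ f, InC C s f → f ∈ U)
    (hC : ∀ s ∈ l, CrC C {f | ω f = c} s)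
    (hR : RayE C U p t y e c ω)
    (hT : ∀ (P : Set Fc) (f : Fc), P ⊆ Anr C U p t y → sbase C p t y e ∈ P →
      Jn P (sbase C p t y e) f → (∃ g, g ∉ U ∧ adjF f g) → ∃ f' ∈ P, ∃ g, g ∉ U ∧ adjF f' g ∧ ω g = c) :
    ∃ β : Finset Fc, β ⊆ U ∧ (∀ f ∈ β, ω f = c) ∧ (∀ f ∈ β, ∀ g ∈ β, Jn (↑β : Set Fc) f g) ∧
      (∃ f ∈ β, ∃ x, x ∉ U ∧ adjF f x ∧ ω x = c) ∧
      (∀ f ∈ β, f ∈ Sect C U p t y e ∨ ∃ s ∈ l, InC C s f) ∧
      ∀ s ∈ l, ∃ u w, IsCr C ↑β s u w := by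
  classical
  have ht := hE.t1
  have htR := hE.tR
  have hX := hE.x
  have hy1 := abs_le.1 hE.y1
  have hy2 := abs_le.1 hE.y2
  have hy3 : |y - C.Y v| + t < R := hE.y3
  have hy3' := abs_le.1 (show |y - C.Y v| ≤ R - t - 1 by omega)
  set T : Finset Fc := U.filter (fun f => ω f = c ∧ ((∃ s ∈ l, InC C s f) ∨ f ∈ Sect C U p t y e))
    with hTd
  have memT : ∀ f, f ∈ T ↔ f ∈ U ∧ ω f = c ∧ ((∃ s ∈ l, InC C s f) ∨ f ∈ Sect C U p t y e) := by
    intro f
    rw [hTd, Finset.mem_filter]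
  have mU : ∀ f, |C.X f - C.X v| ≤ R → |C.Y f - C.Y v| ≤ R → f ∈ U := fun f h1 h2 =>
    hE.box ((C.mem_Bx f v R).2 ⟨h1, h2⟩)
  -- crossings
  have hC' : ∀ s ∈ l, ∃ u w, IsCr C {f | ω f = c} s u w := fun s hs =>
    CrC.cr C (hne s hs).1 (hne s hs).2 (hC s hs)
  have hs0l : s0 ∈ l := List.mem_of_mem_head? hs0
  obtain ⟨u0, w0, h0⟩ := hC' s0 hs0l
  have hsub : {f : Fc | ω f = c} ∩ LS C l ⊆ (↑T : Set Fc) := by
    rintro f ⟨hf1, s, hs, hf2⟩
    rw [Finset.mem_coe, memT]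
    exact ⟨hU s hs f hf2, hf1, Or.inl ⟨s, hs, hf2⟩⟩
  have hu0T : u0 ∈ T := by
    have := hsub ⟨h0.2.2.1.1, s0, hs0l, h0.2.2.1.2⟩
    exact_mod_cast this
  have hin : ∀ s ∈ l, {f : Fc | ω f = c} ∩ {f | InC C s f} ⊆ (↑T : Set Fc) := fun s hs f hf =>
    hsub ⟨hf.1, s, hs, hf.2⟩
  -- the ray path
  obtain ⟨f, g, hfS, hfY, hfX1, hfX2, hfc, hfg, h, hhU, hgh⟩ := hR
  set W : Set Fc := {a | a ∈ Sect C U p t y e ∧ ω a = c} with hW
  have hWT : W ⊆ (↑T : Set Fc) := by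
    intro a ha
    rw [Finset.mem_coe, memT]
    exact ⟨ha.1.1.1, ha.2, Or.inr ha.1⟩
  have hfW : f ∈ W := ⟨hfS, hfc⟩
  set lo : ℤ := s0.y0 with hlo
  set hi : ℤ := s0.y1 with hhi
  have hlh : (e = 1 ∧ lo = y + 1 ∧ hi = y + t) ∨ (e = -1 ∧ lo = y - t ∧ hi = y - 1) := by
    rcases he with he | he
    · exact Or.inl ⟨he, hy.1 he⟩
    · exact Or.inr ⟨he, hy.2 he⟩
  set Q : Set Fc := C.Rc (C.X (ph p) - 40 * t) (C.X (ph p) - 10 * t) lo hi with hQ
  have hfQ : f ∈ Q := by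
    rw [hQ]
    unfold Ch.Rc
    simp only [Set.mem_ofPred_eq]
    rcases hlh with ⟨h1, h2, h3⟩ | ⟨h1, h2, h3⟩ <;> rw [h1] at hfY <;> omega
  -- neighbours of faces of the rectangle and of the base row are in `U`
  have hQU : ∀ a b, C.X (ph p) - 40 * t ≤ C.X a → C.X a ≤ C.X (ph p) - 10 * t →
      y - t ≤ C.Y a → C.Y a ≤ y + t → adjF a b → b ∈ U := by
    intro a b h1 h2 h3 h4 hab
    obtain ⟨k1, k2⟩ := C.king hab
    rw [abs_le] at k1 k2
    apply mU <;> rw [abs_le] <;> omega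
  have hgQ : g ∉ Q := by
    intro hg
    rw [hQ] at hg
    unfold Ch.Rc at hg
    simp only [Set.mem_ofPred_eq] at hg
    apply hhU
    refine hQU g h ?_ ?_ ?_ ?_ hgh <;> rcases hlh with ⟨h1, h2, h3⟩ | ⟨h1, h2, h3⟩ <;> omega
  obtain ⟨a, b, hfa, haQ, hbW, hbQ, hab, -⟩ := hfg.exit hfQ hgQ
  have haY : C.Y a = y + e * t := by
    have hb1 := hbW.1.1.2.1
    have hb2 := hbW.1.1.2.2.1
    have hb3 := hbW.1.1.2.2.2
    rw [C.mem_Bx] at hb1 hb2
    rw [abs_le, abs_le] at hb1 hb2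
    obtain ⟨k1, k2⟩ := C.king hab
    rw [abs_le] at k1 k2
    rw [hQ] at haQ hbQ
    unfold Ch.Rc at haQ hbQ
    simp only [Set.mem_ofPred_eq] at haQ hbQ
    rcases hlh with ⟨h1, h2, h3⟩ | ⟨h1, h2, h3⟩ <;> rw [h1] <;> omega
  have haW : a ∈ W ∩ Q := ⟨hfa.mem ⟨hfW, hfQ⟩ |>.1, haQ⟩
  -- the ray path meets the crossing of the first strip
  have hmeet : ∃ z, z ∈ {f : Fc | ω f = c} ∩ {f | InC C s0 f} ∧
      Jn ({f : Fc | ω f = c} ∩ {f | InC C s0 f}) u0 z ∧ Jn (W ∩ Q) f z := by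
    have hA : ∀ z ∈ ({f : Fc | ω f = c} ∩ {f | InC C s0 f} : Set Fc), lo ≤ C.Y z ∧ C.Y z ≤ hi := by
      intro z hz
      have := hz.2
      unfold InC Sp.In at this
      simp only [Set.mem_ofPred_eq] at this
      exact this.2
    have hB : ∀ z ∈ W ∩ Q, s0.x0 ≤ C.X z ∧ C.X z ≤ s0.x1 := by
      intro z hz
      have := hz.2
      rw [hQ] at this
      unfold Ch.Rc at this
      simp only [Set.mem_ofPred_eq] at this
      omega
    rcases hlh with ⟨h1, h2, h3⟩ | ⟨h1, h2, h3⟩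
    · obtain ⟨z, z1, z2, z3, z4⟩ := meetC C h0.2.2.1 h0.2.2.2 (show f ∈ W ∩ Q from ⟨hfW, hfQ⟩) hfa
        (h0.1 hh).1 (h0.1 hh).2 (c := lo) (d := hi) (by rw [hfY, h1, h2]) (by rw [haY, h1, h3]; ring)
        hA hB
      exact ⟨z, z1, z3, z4⟩
    · have hfa' := hfa.symm (show f ∈ W ∩ Q from ⟨hfW, hfQ⟩)
      obtain ⟨z, z1, z2, z3, z4⟩ := meetC C h0.2.2.1 h0.2.2.2 haW hfa'
        (h0.1 hh).1 (h0.1 hh).2 (c := lo) (d := hi) (by rw [haY, h1, h2]; ring) (by rw [hfY, h1, h3]; ring)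
        hA hB
      exact ⟨z, z1, z3, hfa.trans z4⟩
  obtain ⟨z, z1, z2, z3⟩ := hmeet
  have hzT : z ∈ (↑T : Set Fc) := hin s0 hs0l z1
  have hu0z : Jn (↑T : Set Fc) u0 z := z2.mono (hin s0 hs0l)
  have hfz : Jn (↑T : Set Fc) f z := z3.mono (Set.inter_subset_left.trans hWT)
  have hu0f : Jn (↑T : Set Fc) u0 f := hu0z.trans (hfz.symm (hWT hfW))
  have hfβ : f ∈ comp T u0 := mem_comp.2 ⟨by exact_mod_cast hWT hfW, hu0f⟩
  refine ⟨comp T u0, ?_, ?_, fun a ha b hb => comp_conn hu0T ha hb, ?_, ?_, ?_⟩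
  · intro a ha
    exact ((memT a).1 (comp_sub _ _ ha)).1
  · intro a ha
    exact ((memT a).1 (comp_sub _ _ ha)).2.1
  · -- attached to the outside
    set B : Set Fc := {a | C.Y a = y + e ∧ C.X (ph p) - 40 * t ≤ C.X a ∧ C.X a ≤ C.X (ph p) - 10 * t}
      with hBd
    set P : Set Fc := {a | a ∈ W ∧ Jn W f a} ∪ B with hP
    have hBA : B ⊆ Anr C U p t y := by
      rintro a ⟨h1, h2, h3⟩
      refine ⟨mU a ?_ ?_, ?_, ?_, ?_⟩
      · rw [abs_le]; omega
      · rw [abs_le]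
        rcases he with he | he <;> rw [he] at h1 <;> omega
      · rw [C.mem_Bx, abs_le, abs_le]
        rcases he with he | he <;> rw [he] at h1 <;> omega
      · rw [C.mem_Bx, abs_le, abs_le]
        omega
      · rintro ⟨h4, -⟩
        rcases he with he | he <;> rw [he] at h1 <;> omega
    have hPA : P ⊆ Anr C U p t y := by
      rintro a (ha | ha)
      · exact ha.1.1.1
      · exact hBA ha
    have hbase : sbase C p t y e ∈ B := by
      refine ⟨?_, ?_, ?_⟩ <;> unfold sbase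
      · rw [C.Y_pt]
      · rw [C.X_pt]; omega
      · rw [C.X_pt]
    have j1 : Jn P (sbase C p t y e) f := by
      have : Jn B (C.pt (C.X (ph p) - 10 * t) (y + e)) (C.pt (C.X f) (y + e)) := by
        apply C.jn_row
        intro k hk hk'
        refine ⟨?_, ?_, ?_⟩
        · rw [C.Y_pt]
        · rw [C.X_pt]; omega
        · rw [C.X_pt]; omega
      have e1 : C.pt (C.X f) (y + e) = f := by rw [← hfY, C.pt_XY]
      rw [e1] at this
      exact this.mono Set.subset_union_right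
    have key : ∀ g', Jn W f g' → Jn P f g' := by
      intro g' hg'
      induction hg' with
      | refl => exact Jn.refl _
      | @tail b c hb hc ih =>
        exact ih.step (Or.inl ⟨hc.1, Relation.ReflTransGen.tail hb hc⟩) hc.2
    obtain ⟨f', hf'P, g', hg'U, hf'g', hg'c⟩ := hT P g hPA (Or.inr hbase) (j1.trans (key g hfg))
      ⟨h, hhU, hgh⟩
    rcases hf'P with hf' | hf'
    · refine ⟨f', mem_comp.2 ⟨by exact_mod_cast hWT hf'.1, ?_⟩, g', hg'U, hf'g', hg'c⟩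
      exact hu0f.trans (hf'.2.mono hWT)
    · exfalso
      obtain ⟨k1, k2, k3⟩ := hf'
      apply hg'U
      refine hQU f' g' k2 k3 ?_ ?_ hf'g' <;> rcases he with he | he <;> rw [he] at k1 <;> omega
  · intro a ha
    exact ((memT a).1 (comp_sub _ _ ha)).2.2.symm
  · intro s hs
    obtain ⟨u', w', h1, h2⟩ := chain_conn C l hch hC' s0 hs0 u0 w0 h0 s hs
    refine ⟨u', w', h1.1, h1.2.1, ?_, ?_⟩
    · refine ⟨?_, h1.2.2.1.2⟩
      rw [Finset.mem_coe, mem_comp]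
      exact ⟨by exact_mod_cast hin s hs h1.2.2.1, h2.mono hsub⟩
    · have key : ∀ g', Jn ({f : Fc | ω f = c} ∩ {f | InC C s f}) u' g' →
          Jn ((↑(comp T u0) : Set Fc) ∩ {f | InC C s f}) u' g' := by
        intro g' hg'
        induction hg' with
        | refl => exact Jn.refl _
        | @tail b c hb hc ih =>
          refine ih.step ⟨?_, hc.1.2⟩ hc.2
          rw [Finset.mem_coe, mem_comp]
          refine ⟨by exact_mod_cast hin s hs hc.1, (h2.mono hsub).trans ?_⟩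
          exact (Jn.mono (hin s hs) hb).step (hin s hs hc.1) hc.2
      exact key w' h1.2.2.2

end Pool.Agent.H55.Per
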